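import Mathlib

/-! Letter counts in free groups, for MP_c4ae4c_al. -/

open FreeGroup List

namespace Pool.Agent.Helper344.FNW

variable {α : Type*} [DecidableEq α]

/-- The number of letters `z` or `z⁻¹` of a word. -/
def cnt (z : α) (L : List (α × Bool)) : ℕ := L.countP (fun p => decide (p.1 = z))

@[simp] lemma cnt_nil (z : α) : cnt z ([] : List (α × Bool)) = 0 := rfl

lemma cnt_cons (z : α) (p : α × Bool) (L : List (α × Bool)) :
    cnt z (p :: L) = cnt z L + if p.1 = z then 1 else 0 := by
  unfold cnt
  rw [List.countP_cons]
  simp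

lemma cnt_append (z : α) (L M : List (α × Bool)) : cnt z (L ++ M) = cnt z L + cnt z M :=
  List.countP_append

lemma cnt_invRev (z : α) (L : List (α × Bool)) : cnt z (invRev L) = cnt z L := by
  unfold cnt invRev
  rw [List.countP_reverse, List.countP_map]
  rfl

lemma cnt_flatten_replicate (z : α) (n : ℕ) (L : List (α × Bool)) :
    cnt z (List.replicate n L).flatten = n * cnt z L := by
  induction n with
  | zero => simp
  | succ n ih =>
    rw [List.replicate_succ, List.flatten_cons, cnt_append, ih]
    ring

lemma cnt_zero_iff (z : α) (L : List (α × Bool)) : cnt z L = 0 ↔ ∀ p ∈ L, p.1 ≠ z := by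
  unfold cnt
  rw [List.countP_eq_zero]
  simp

lemma cnt_mul_le (z : α) (x y : FreeGroup α) :
    cnt z (x * y).toWord ≤ cnt z x.toWord + cnt z y.toWord := by
  rw [← cnt_append, toWord_mul]
  exact List.Sublist.countP_le (Red.sublist reduce.red)

/-- Products without cancellation. -/
lemma toWord_mul_of (x y : FreeGroup α)
    (h : ∀ a ∈ x.toWord.getLast?, ∀ b ∈ y.toWord.head?, a.1 = b.1 → a.2 = b.2) :
    (x * y).toWord = x.toWord ++ y.toWord := by
  rw [toWord_mul]
  apply FreeGroup.IsReduced.reduce_eq
  unfold FreeGroup.IsReduced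
  rw [List.isChain_append]
  exact ⟨isReduced_toWord, isReduced_toWord, h⟩

/-- Count in the conjugator. -/
def gam (z : α) (y : FreeGroup α) : ℕ := cnt z (reduceCyclically.conjugator y.toWord)
/-- Count in the core. -/
def kap (z : α) (y : FreeGroup α) : ℕ := cnt z (reduceCyclically y.toWord)

lemma cnt_eq (z : α) (y : FreeGroup α) : cnt z y.toWord = 2 * gam z y + kap z y := by
  conv_lhs => rw [← reduceCyclically.conj_conjugator_reduceCyclically y.toWord]
  rw [cnt_append, cnt_append, cnt_invRev]
  unfold gam kap
  ring

lemma cnt_pow (z : α) (y : FreeGroup α) (n : ℕ) (hn : n ≠ 0) :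
    cnt z (y ^ n).toWord = 2 * gam z y + n * kap z y := by
  obtain ⟨m, rfl⟩ := Nat.exists_eq_succ_of_ne_zero hn
  have h : (y ^ (m + 1)).toWord = reduce (List.replicate (m + 1) y.toWord).flatten := by
    rw [FreeGroup.toWord_pow]
  rw [Nat.succ_eq_add_one, h, reduceCyclically.reduce_flatten_replicate_succ isReduced_toWord,
    cnt_append, cnt_append, cnt_invRev, cnt_flatten_replicate]
  unfold gam kap
  ring

lemma cnt_zpow (z : α) (y : FreeGroup α) (k : ℤ) (hk : k ≠ 0) :
    cnt z (y ^ k).toWord = 2 * gam z y + k.natAbs * kap z y := by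
  have hk' : k.natAbs ≠ 0 := by omega
  rcases Int.natAbs_eq k with h | h
  · rw [h, zpow_natCast, cnt_pow z y _ hk', Int.natAbs_natCast]
  · rw [h, zpow_neg, zpow_natCast, toWord_inv, cnt_invRev, cnt_pow z y _ hk', Int.natAbs_neg,
      Int.natAbs_natCast]

/-- Exponent sum. -/
def chi (z : α) : FreeGroup α →* Multiplicative ℤ :=
  FreeGroup.lift (fun x => if x = z then Multiplicative.ofAdd 1 else 1)

lemma chi_mk_of_cnt (z : α) (L : List (α × Bool)) (h : cnt z L = 0) : chi z (FreeGroup.mk L) = 1 := by
  induction L with
  | nil => rw [← FreeGroup.one_eq_mk]; exact _root_.map_one _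
  | cons p L ih =>
    rw [cnt_cons] at h
    have h1 : cnt z L = 0 := by omega
    have h2 : p.1 ≠ z := by
      intro hp
      rw [if_pos hp] at h
      omega
    have h3 : FreeGroup.mk (p :: L) = FreeGroup.mk [p] * FreeGroup.mk L := by
      rw [FreeGroup.mul_mk]; rfl
    rw [h3, _root_.map_mul, ih h1, mul_one]
    obtain ⟨x, b⟩ := p
    simp only at h2
    cases b <;> simp [chi, FreeGroup.lift_mk, h2]

lemma kap_pos (z : α) (y : FreeGroup α) (h : chi z y ≠ 1) : 1 ≤ kap z y := by
  by_contra hcon
  have h0 : kap z y = 0 := by omega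
  apply h
  have h1 : y = FreeGroup.mk (reduceCyclically.conjugator y.toWord) *
      FreeGroup.mk (reduceCyclically y.toWord) *
      (FreeGroup.mk (reduceCyclically.conjugator y.toWord))⁻¹ := by
    rw [FreeGroup.inv_mk, FreeGroup.mul_mk, FreeGroup.mul_mk,
      reduceCyclically.conj_conjugator_reduceCyclically, FreeGroup.mk_toWord]
  rw [h1, _root_.map_mul, _root_.map_mul, chi_mk_of_cnt z _ h0, mul_one, ← _root_.map_mul, mul_inv_cancel, _root_.map_one]

/-- The bound. -/
def hb (B n : ℕ) : ℕ := if n = 0 then 0 else if n = 1 then B else B + 1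

/-- The value of a letter. -/
lemma lift_cons {β : Type*} (f : β → FreeGroup α) (x : β) (b : Bool) (L : List (β × Bool)) :
    FreeGroup.lift f (FreeGroup.mk ((x, b) :: L)) =
      (f x) ^ (if b then (1 : ℤ) else -1) * FreeGroup.lift f (FreeGroup.mk L) := by
  have h3 : FreeGroup.mk ((x, b) :: L) = FreeGroup.mk [(x, b)] * FreeGroup.mk L := by
    rw [FreeGroup.mul_mk]; rfl
  rw [h3, _root_.map_mul]
  congr 1
  cases b <;> simp [FreeGroup.lift_mk]

section main

variable {β : Type*} [DecidableEq β]

lemma core_bound (z0 z : α) (hz : z ≠ z0) (y : FreeGroup α) (hy0 : cnt z0 y.toWord = 0)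
    (hκ : 1 ≤ kap z y) (σ τ : β) (f : β → FreeGroup α) (hfσ : f σ = y)
    (hfτ : ∀ x, x ≠ σ → f x = FreeGroup.of z0) (hτ : ∀ x, x ≠ σ → x = τ)
    (L : List (β × Bool)) (hL : FreeGroup.IsReduced L) :
    ∃ (k : ℤ) (g : FreeGroup α) (N : ℕ),
      FreeGroup.lift f (FreeGroup.mk L) = y ^ k * g ∧
      k.natAbs + N = cnt σ L ∧
      (∀ p ∈ g.toWord.head?, p.1 = z0) ∧
      hb (cnt z y.toWord) N ≤ cnt z g.toWord ∧
      (L = [] → k = 0 ∧ g = 1) ∧
      (∀ p ∈ L.head?, p.1 = σ → k ≠ 0 ∧ (0 < k ↔ p.2 = true)) ∧
      (∀ p ∈ L.head?, p.1 ≠ σ → k = 0 ∧ g.toWord.head? = some (z0, p.2)) := by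
  -- powers of `y` contain no `z0`
  have hpow0 : ∀ k : ℤ, cnt z0 (y ^ k).toWord = 0 := by
    intro k
    by_cases hk : k = 0
    · rw [hk, zpow_zero, toWord_one, cnt_nil]
    · rw [cnt_zpow z0 y k hk]
      rw [cnt_eq] at hy0
      have h1 : gam z0 y = 0 := by omega
      have h2 : kap z0 y = 0 := by omega
      rw [h1, h2]
      simp
  have hyinf : ∀ k : ℤ, k ≠ 0 → (y ^ k).toWord ≠ [] := by
    intro k hk h
    have h1 := cnt_zpow z y k hk
    rw [h, cnt_nil] at h1
    have h2 : 1 ≤ k.natAbs * kap z y := Nat.mul_pos (by omega) hκ
    omega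
  have hprod : ∀ (k : ℤ) (g : FreeGroup α), (∀ p ∈ g.toWord.head?, p.1 = z0) →
      (y ^ k * g).toWord = (y ^ k).toWord ++ g.toWord := by
    intro k g hg
    apply toWord_mul_of
    intro a ha b hb hab
    exfalso
    have h1 : a ∈ (y ^ k).toWord := List.mem_of_getLast? ha
    have h2 := (cnt_zero_iff z0 _).mp (hpow0 k) a h1
    exact h2 (hab.trans (hg b hb))
  induction L with
  | nil =>
    refine ⟨0, 1, 0, ?_, ?_, ?_, ?_, ?_, ?_, ?_⟩
    · rw [← FreeGroup.one_eq_mk, _root_.map_one, zpow_zero, mul_one]
    · simp
    · simp
    · simp [hb]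
    · exact fun _ => ⟨rfl, rfl⟩
    · simp
    · simp
  | cons p L ih =>
    have hLr : FreeGroup.IsReduced L := List.IsChain.tail hL
    obtain ⟨k, g, N, hval, hN, hhead, hbd, hnil, hs, ht⟩ := ih hLr
    obtain ⟨x, b⟩ := p
    have hred : ∀ q ∈ L.head?, x = q.1 → b = q.2 := by
      intro q hq hxq
      cases L with
      | nil => simp at hq
      | cons q' L' =>
        simp only [List.head?_cons, Option.mem_def, Option.some.injEq] at hq
        subst hq
        exact (List.isChain_cons_cons.mp hL).1 hxq
    by_cases hx : x = σ
    · -- a `σ`-letter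
      subst hx
      refine ⟨(if b then (1 : ℤ) else -1) + k, g, N, ?_, ?_, hhead, hbd, ?_, ?_, ?_⟩
      · rw [lift_cons, hval, hfσ, ← mul_assoc, ← zpow_add]
      · rw [cnt_cons, if_pos rfl, ← hN]
        have hk : k = 0 ∨ (0 < k ∧ b = true) ∨ (k < 0 ∧ b = false) := by
          cases hh : L with
          | nil => exact Or.inl (hnil hh).1
          | cons q' L' =>
            have hq : q' ∈ L.head? := by rw [hh]; simp
            by_cases hq1 : q'.1 = x
            · have h1 := hs q' hq hq1
              have h2 := hred q' hq hq1.symm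
              rcases lt_or_gt_of_ne h1.1 with h3 | h3
              · right; right
                refine ⟨h3, ?_⟩
                rw [h2]
                have : ¬ (q'.2 = true) := fun h => by have := h1.2.mpr h; omega
                simpa using this
              · right; left
                exact ⟨h3, by rw [h2]; exact h1.2.mp h3⟩
            · exact Or.inl (ht q' hq hq1).1
        rcases hk with hk | ⟨hk, hb⟩ | ⟨hk, hb⟩
        · cases b <;> simp [hk] <;> omega
        · simp only [hb, if_true]
          omega
        · simp only [hb]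
          simp only [Bool.false_eq_true, if_false]
          omega
      · intro h
        simp at h
      · intro p hp _
        simp only [List.head?_cons, Option.mem_def, Option.some.injEq] at hp
        subst hp
        have hk : k = 0 ∨ (0 < k ∧ b = true) ∨ (k < 0 ∧ b = false) := by
          cases hh : L with
          | nil => exact Or.inl (hnil hh).1
          | cons q' L' =>
            have hq : q' ∈ L.head? := by rw [hh]; simp
            by_cases hq1 : q'.1 = x
            · have h1 := hs q' hq hq1
              have h2 := hred q' hq hq1.symm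
              rcases lt_or_gt_of_ne h1.1 with h3 | h3
              · right; right
                refine ⟨h3, ?_⟩
                rw [h2]
                have : ¬ (q'.2 = true) := fun h => by have := h1.2.mpr h; omega
                simpa using this
              · right; left
                exact ⟨h3, by rw [h2]; exact h1.2.mp h3⟩
            · exact Or.inl (ht q' hq hq1).1
        rcases hk with hk | ⟨hk, hb⟩ | ⟨hk, hb⟩
        · cases b <;> simp [hk]
        · subst hb
          simp
          omega
        · subst hb
          simp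
          omega
      · intro p hp hne
        simp only [List.head?_cons, Option.mem_def, Option.some.injEq] at hp
        subst hp
        exact absurd rfl hne
    · -- a `z0`-letter
      have hword : (FreeGroup.mk [(z0, b)] : FreeGroup α).toWord = [(z0, b)] := by
        rw [toWord_mk]
        exact FreeGroup.IsReduced.reduce_eq FreeGroup.IsReduced.singleton
      have hG := hprod k g hhead
      have hnc : (FreeGroup.mk [(z0, b)] * (y ^ k * g)).toWord =
          (z0, b) :: ((y ^ k).toWord ++ g.toWord) := by
        rw [toWord_mul_of, hword, hG]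
        · rfl
        · intro a ha c hc hac
          rw [hword] at ha
          simp only [List.getLast?_singleton, Option.mem_def, Option.some.injEq] at ha
          subst ha
          rw [hG] at hc
          by_cases hk : k = 0
          · rw [hk, zpow_zero, toWord_one, List.nil_append] at hc
            cases hh : L with
            | nil =>
              rw [(hnil hh).2, toWord_one] at hc
              simp at hc
            | cons q' L' =>
              have hq : q' ∈ L.head? := by rw [hh]; simp
              by_cases hq1 : q'.1 = σ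
              · exact absurd hk (hs q' hq hq1).1
              · have h1 := (ht q' hq hq1).2
                rw [h1] at hc
                simp only [Option.mem_def, Option.some.injEq] at hc
                subst hc
                have hxq : x = q'.1 := (hτ x hx).trans (hτ _ hq1).symm
                exact hred q' hq hxq
          · exfalso
            obtain ⟨q, Q, hQ⟩ := List.exists_cons_of_ne_nil (hyinf k hk)
            rw [hQ] at hc
            simp only [List.cons_append, List.head?_cons, Option.mem_def, Option.some.injEq] at hc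
            subst hc
            have h2 := (cnt_zero_iff z0 _).mp (hpow0 k) q (by rw [hQ]; simp)
            exact h2 hac.symm
      refine ⟨0, FreeGroup.mk [(z0, b)] * (y ^ k * g), k.natAbs + N, ?_, ?_, ?_, ?_, ?_, ?_, ?_⟩
      · rw [lift_cons, hval, hfτ x hx, zpow_zero, one_mul]
        congr 1
        cases b <;> simp [FreeGroup.of, FreeGroup.inv_mk, invRev]
      · rw [cnt_cons, if_neg hx, ← hN]
        simp
      · rw [hnc]
        simp
      · rw [hnc, cnt_cons, if_neg (fun h => hz h.symm), cnt_append, add_zero]
        have hB := cnt_eq z y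
        by_cases hk : k = 0
        · rw [hk]
          simpa using hbd
        · rw [cnt_zpow z y k hk]
          have hkn : 1 ≤ k.natAbs := by omega
          have hmul : kap z y ≤ k.natAbs * kap z y := Nat.le_mul_of_pos_left _ hkn
          by_cases hk2 : k.natAbs = 1
          · rw [hk2, one_mul]
            unfold hb at hbd ⊢
            by_cases hN0 : N = 0
            · subst hN0
              simp
              omega
            · rw [if_neg (by omega), if_neg (by omega)]
              by_cases hN1 : N = 1
              · rw [if_neg (by omega), if_pos hN1] at hbd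
                omega
              · rw [if_neg (by omega), if_neg (by omega)] at hbd
                omega
          · have h2 : 2 * kap z y ≤ k.natAbs * kap z y := Nat.mul_le_mul_right _ (by omega)
            unfold hb
            rw [if_neg (by omega), if_neg (by omega)]
            omega
      · intro h
        simp at h
      · intro p hp hne
        simp only [List.head?_cons, Option.mem_def, Option.some.injEq] at hp
        subst hp
        exact absurd hne hx
      · intro p hp hne
        simp only [List.head?_cons, Option.mem_def, Option.some.injEq] at hp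
        subst hp
        refine ⟨rfl, ?_⟩
        rw [hnc]
        simp

/-- If `σ` occurs at least twice in a reduced word, then the count grows. -/
lemma lower_bound (z0 z : α) (hz : z ≠ z0) (y : FreeGroup α) (hy0 : cnt z0 y.toWord = 0)
    (hκ : 1 ≤ kap z y) (σ τ : β) (f : β → FreeGroup α) (hfσ : f σ = y)
    (hfτ : ∀ x, x ≠ σ → f x = FreeGroup.of z0) (hτ : ∀ x, x ≠ σ → x = τ)
    (w : FreeGroup β) (h2 : 2 ≤ cnt σ w.toWord) :
    cnt z y.toWord + 1 ≤ cnt z (FreeGroup.lift f w).toWord := by
  obtain ⟨k, g, N, hval, hN, hhead, hbd, -, -, -⟩ :=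
    core_bound z0 z hz y hy0 hκ σ τ f hfσ hfτ hτ w.toWord isReduced_toWord
  rw [FreeGroup.mk_toWord] at hval
  rw [hval]
  have hpow0 : ∀ k : ℤ, cnt z0 (y ^ k).toWord = 0 := by
    intro k
    by_cases hk : k = 0
    · rw [hk, zpow_zero, toWord_one, cnt_nil]
    · rw [cnt_zpow z0 y k hk]
      rw [cnt_eq] at hy0
      have h1 : gam z0 y = 0 := by omega
      have h2 : kap z0 y = 0 := by omega
      rw [h1, h2]
      simp
  have hG : (y ^ k * g).toWord = (y ^ k).toWord ++ g.toWord := by
    apply toWord_mul_of
    intro a ha b hb hab
    exfalso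
    have h1 : a ∈ (y ^ k).toWord := List.mem_of_getLast? ha
    have h2 := (cnt_zero_iff z0 _).mp (hpow0 k) a h1
    exact h2 (hab.trans (hhead b hb))
  rw [hG, cnt_append]
  have hB := cnt_eq z y
  by_cases hk : k = 0
  · rw [hk] at hN ⊢
    rw [zpow_zero, toWord_one, cnt_nil]
    unfold hb at hbd
    rw [if_neg (by omega), if_neg (by omega)] at hbd
    omega
  · rw [cnt_zpow z y k hk]
    by_cases hk2 : k.natAbs = 1
    · rw [hk2, one_mul]
      unfold hb at hbd
      by_cases hN1 : N = 1
      · rw [if_neg (by omega), if_pos hN1] at hbd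
        omega
      · rw [if_neg (by omega), if_neg (by omega)] at hbd
        omega
    · have h2 : 2 * kap z y ≤ k.natAbs * kap z y := Nat.mul_le_mul_right _ (by omega)
      omega

end main

/-- Upper bound for the count of a substituted word. -/
lemma upper_bound (z : α) (f : Fin 2 → FreeGroup α) (w : FreeGroup (Fin 2)) :
    cnt z (FreeGroup.lift f w).toWord ≤
      cnt 0 w.toWord * cnt z (f 0).toWord + cnt 1 w.toWord * cnt z (f 1).toWord := by
  have key : ∀ L : List (Fin 2 × Bool), cnt z (FreeGroup.lift f (FreeGroup.mk L)).toWord ≤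
      cnt 0 L * cnt z (f 0).toWord + cnt 1 L * cnt z (f 1).toWord := by
    intro L
    induction L with
    | nil =>
      rw [← FreeGroup.one_eq_mk, _root_.map_one, toWord_one]
      simp
    | cons p L ih =>
      obtain ⟨x, b⟩ := p
      rw [lift_cons]
      refine (cnt_mul_le z _ _).trans ?_
      have h1 : cnt z ((f x) ^ (if b then (1 : ℤ) else -1)).toWord = cnt z (f x).toWord := by
        cases b
        · simp [toWord_inv, cnt_invRev]
        · simp
      rw [h1, cnt_cons, cnt_cons]
      have hx : x = 0 ∨ x = 1 := by omega
      rcases hx with rfl | rfl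
      · rw [if_pos rfl, if_neg (by simp)]
        calc _ ≤ cnt z (f 0).toWord + (cnt 0 L * cnt z (f 0).toWord
              + cnt 1 L * cnt z (f 1).toWord) := Nat.add_le_add_left ih _
          _ = _ := by ring
      · rw [if_neg (by simp), if_pos rfl]
        calc _ ≤ cnt z (f 1).toWord + (cnt 0 L * cnt z (f 0).toWord
              + cnt 1 L * cnt z (f 1).toWord) := Nat.add_le_add_left ih _
          _ = _ := by ring
  have := key w.toWord
  rwa [FreeGroup.mk_toWord] at this

/-- Relabelling along an injective map keeps a word reduced. -/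
lemma toWord_relabel {β : Type*} [DecidableEq β] (ι : β → α) (hι : Function.Injective ι)
    (w : FreeGroup β) :
    (FreeGroup.lift (fun x => FreeGroup.of (ι x)) w).toWord =
      w.toWord.map (fun p => (ι p.1, p.2)) := by
  have h1 : FreeGroup.lift (fun x => FreeGroup.of (ι x)) w =
      FreeGroup.mk (w.toWord.map (fun p => (ι p.1, p.2))) := by
    conv_lhs => rw [← FreeGroup.mk_toWord (x := w)]
    generalize w.toWord = L
    induction L with
    | nil => rw [← FreeGroup.one_eq_mk, _root_.map_one]; rfl
    | cons p L ih =>
      obtain ⟨x, b⟩ := p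
      rw [lift_cons, ih]
      cases b <;> simp [FreeGroup.of, FreeGroup.inv_mk, invRev, FreeGroup.mul_mk]
  rw [h1, toWord_mk]
  apply FreeGroup.IsReduced.reduce_eq
  unfold FreeGroup.IsReduced
  rw [List.isChain_map]
  exact List.IsChain.imp (fun a b h hab => h (hι hab)) isReduced_toWord

lemma cnt_relabel {β : Type*} [DecidableEq β] (ι : β → α) (hι : Function.Injective ι)
    (w : FreeGroup β) (x : β) :
    cnt (ι x) (FreeGroup.lift (fun x => FreeGroup.of (ι x)) w).toWord = cnt x w.toWord := by
  rw [toWord_relabel ι hι]
  unfold cnt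
  rw [List.countP_map]
  congr 1
  funext p
  simp [hι.eq_iff]

end Pool.Agent.Helper344.FNW
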