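import Mathlib

/-! Free groups are residually nilpotent (Magnus representation on alternating lists). -/

open List

namespace Pool.Agent.Helper344.FNW.Res

variable {α : Type*} [DecidableEq α]

/-- The nilpotent operator of a letter. -/
def N (i : α) : Module.End ℤ (List α → ℤ) where
  toFun v L := match L with
    | [] => 0
    | y :: L' => if y = i ∧ L'.head? ≠ some i then v L' else 0
  map_add' v w := by
    funext L
    cases L with
    | nil => simp
    | cons y L' =>
      simp only [Pi.add_apply]
      split_ifs <;> simp
  map_smul' c v := by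
    funext L
    cases L with
    | nil => simp
    | cons y L' =>
      simp only [Pi.smul_apply, RingHom.id_apply]
      split_ifs <;> simp

lemma N_nil (i : α) (v : List α → ℤ) : N i v [] = 0 := rfl

lemma N_cons (i y : α) (v : List α → ℤ) (L : List α) :
    N i v (y :: L) = if y = i ∧ L.head? ≠ some i then v L else 0 := rfl

lemma N_head (i : α) (v : List α → ℤ) (L : List α) (h : L.head? ≠ some i) : N i v L = 0 := by
  cases L with
  | nil => rfl
  | cons y L' =>
    rw [N_cons, if_neg]
    rintro ⟨rfl, -⟩
    simp at h

lemma N_sq (i : α) : N i * N i = 0 := by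
  refine LinearMap.ext fun v => ?_
  funext L
  rw [Module.End.mul_apply]
  cases L with
  | nil => rfl
  | cons y L' =>
    rw [N_cons]
    split_ifs with h
    · rw [N_head i v L' h.2]; rfl
    · rfl

/-- The unit of a letter. -/
def U (i : α) : (Module.End ℤ (List α → ℤ))ˣ where
  val := 1 + N i
  inv := 1 - N i
  val_inv := by
    have h := N_sq i
    calc (1 + N i) * (1 - N i) = 1 - N i * N i := by noncomm_ring
      _ = 1 := by rw [h, sub_zero]
  inv_val := by
    have h := N_sq i
    calc (1 - N i) * (1 + N i) = 1 - N i * N i := by noncomm_ring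
      _ = 1 := by rw [h, sub_zero]

/-- The representation. -/
def rho : FreeGroup α →* (Module.End ℤ (List α → ℤ))ˣ := FreeGroup.lift U

/-- The action. -/
def act (g : FreeGroup α) (v : List α → ℤ) : List α → ℤ := (rho g : Module.End ℤ (List α → ℤ)) v

lemma act_one (v : List α → ℤ) : act 1 v = v := by
  unfold act
  rw [map_one]
  rfl

lemma act_mul (g h : FreeGroup α) (v : List α → ℤ) : act (g * h) v = act g (act h v) := by
  unfold act
  rw [map_mul, Units.val_mul, Module.End.mul_apply]

lemma act_sub (g : FreeGroup α) (v w : List α → ℤ) : act g (v - w) = act g v - act g w := by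
  unfold act
  rw [map_sub]

lemma act_of (i : α) (v : List α → ℤ) : act (FreeGroup.of i) v = v + N i v := by
  unfold act rho
  rw [FreeGroup.lift_apply_of]
  rfl

lemma act_of_inv (i : α) (v : List α → ℤ) : act (FreeGroup.of i)⁻¹ v = v - N i v := by
  unfold act rho
  rw [map_inv, FreeGroup.lift_apply_of]
  rfl

/-- The filtration. -/
def F (j : ℕ) : AddSubgroup (List α → ℤ) where
  carrier := {v | ∀ L : List α, L.length < j → v L = 0}
  zero_mem' := fun _ _ => rfl
  add_mem' := fun {v w} hv hw L hL => by
    rw [Pi.add_apply, hv L hL, hw L hL, add_zero]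
  neg_mem' := fun {v} hv L hL => by
    rw [Pi.neg_apply, hv L hL, neg_zero]

lemma F_mono {i j : ℕ} (h : i ≤ j) {v : List α → ℤ} (hv : v ∈ F j) : v ∈ F i :=
  fun L hL => hv L (lt_of_lt_of_le hL h)

lemma N_mem (i : α) {j : ℕ} {v : List α → ℤ} (hv : v ∈ F j) : N i v ∈ F (j + 1) := by
  intro L hL
  cases L with
  | nil => rfl
  | cons y L' =>
    rw [N_cons]
    split_ifs
    · exact hv L' (by simpa using hL)
    · rfl

lemma act_sub_mem (g : FreeGroup α) : ∀ (j : ℕ) (v : List α → ℤ), v ∈ F j → act g v - v ∈ F (j + 1) := by
  induction g using FreeGroup.induction_on with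
  | C1 =>
    intro j v _
    rw [act_one, sub_self]
    exact (F (j + 1)).zero_mem
  | of i =>
    intro j v hv
    rw [act_of, add_sub_cancel_left]
    exact N_mem i hv
  | inv_of i _ =>
    intro j v hv
    rw [act_of_inv, sub_sub_cancel_left]
    exact (F (j + 1)).neg_mem (N_mem i hv)
  | mul g h ihg ihh =>
    intro j v hv
    have h1 := ihh j v hv
    have h2 : act h v ∈ F j := by
      have := (F j).add_mem (F_mono (Nat.le_succ j) h1) hv
      simpa using this
    have h3 := ihg j _ h2
    have h4 := (F (j + 1)).add_mem h3 h1
    rw [act_mul]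
    simpa using h4

lemma act_mem (g : FreeGroup α) {j : ℕ} {v : List α → ℤ} (hv : v ∈ F j) : act g v ∈ F j := by
  have := (F j).add_mem (F_mono (Nat.le_succ j) (act_sub_mem g j v hv)) hv
  simpa using this

/-- The central filtration of the free group. -/
def H (n : ℕ) : Subgroup (FreeGroup α) where
  carrier := {g | ∀ (j : ℕ) (v : List α → ℤ), v ∈ F j → act g v - v ∈ F (j + n + 1)}
  one_mem' := by
    intro j v _
    rw [act_one, sub_self]
    exact (F _).zero_mem
  mul_mem' := by
    intro g h hg hh j v hv
    have h1 := act_mem g (hh j v hv)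
    have h2 := (F _).add_mem h1 (hg j v hv)
    rw [act_sub] at h2
    rw [act_mul]
    simpa using h2
  inv_mem' := by
    intro g hg j v hv
    have h1 := (F _).neg_mem (act_mem g⁻¹ (hg j v hv))
    rw [act_sub, ← act_mul, inv_mul_cancel, act_one, neg_sub] at h1
    exact h1

lemma H_central : Subgroup.IsDescendingCentralSeries (H (α := α)) := by
  constructor
  · rw [eq_top_iff]
    intro g _ j v hv
    exact act_sub_mem g j v hv
  · intro x n hx g j v hv
    have hu : act (x⁻¹ * g⁻¹) v ∈ F j := act_mem _ hv
    set u := act (x⁻¹ * g⁻¹) v with hudef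
    have hv2 : act (g * x) u = v := by
      rw [hudef, ← act_mul]
      have : g * x * (x⁻¹ * g⁻¹) = 1 := by group
      rw [this, act_one]
    have hv3 : act g (act x u) = v := by rw [← act_mul]; exact hv2
    have hlhs : act (x * g * x⁻¹ * g⁻¹) v - v = act x (act g u) - act g (act x u) := by
      rw [hv3, hudef, ← act_mul, ← act_mul]
      congr 2
      group
    rw [commutatorElement_def, hlhs]
    have h1 : act x (act g u - u) - (act g u - u) ∈ F (j + 1 + n + 1) :=
      hx (j + 1) _ (act_sub_mem g j u hu)
    have h2 : act g (act x u - u) - (act x u - u) ∈ F (j + n + 1 + 1) :=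
      act_sub_mem g _ _ (hx j u hu)
    have h3 : act x (act g u) - act g (act x u) =
        (act x (act g u - u) - (act g u - u)) - (act g (act x u - u) - (act x u - u)) := by
      rw [act_sub, act_sub]
      abel
    rw [h3]
    refine (F _).sub_mem (F_mono ?_ h1) (F_mono ?_ h2) <;> omega

/-- The start vector. -/
def dl : List α → ℤ := fun L => if L = [] then 1 else 0

/-- The sign of a letter. -/
def sg (b : Bool) : ℤ := if b then 1 else -1

lemma act_cons (x : α) (b : Bool) (L : List (α × Bool)) (v : List α → ℤ) :
    act (FreeGroup.mk ((x, b) :: L)) v =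
      act (FreeGroup.mk L) v + sg b • N x (act (FreeGroup.mk L) v) := by
  have h3 : FreeGroup.mk ((x, b) :: L) = FreeGroup.mk [(x, b)] * FreeGroup.mk L := by
    rw [FreeGroup.mul_mk]; rfl
  rw [h3, act_mul]
  cases b
  · have : (FreeGroup.mk [(x, false)] : FreeGroup α) = (FreeGroup.of x)⁻¹ := by
      simp [FreeGroup.of, FreeGroup.inv_mk, FreeGroup.invRev]
    rw [this, act_of_inv]
    simp [sg, sub_eq_add_neg]
  · have : (FreeGroup.mk [(x, true)] : FreeGroup α) = FreeGroup.of x := rfl
    rw [this, act_of]
    simp [sg]

lemma top_coeff (L : List (α × Bool)) : FreeGroup.IsReduced L →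
    ∀ p ∈ L.head?, ∃ (T : List α) (c e : ℤ), c ≠ 0 ∧ 1 ≤ e ∧ T.head? ≠ some p.1 ∧
      act (FreeGroup.mk L) dl (p.1 :: T) = sg p.2 * e * c ∧
      act (FreeGroup.mk L) dl T = c ∧
      ∀ M, act (FreeGroup.mk L) dl M ≠ 0 → M <+ (p.1 :: T) := by
  induction L with
  | nil => intro _ p hp; simp at hp
  | cons p L ih =>
    intro hL p' hp'
    simp only [List.head?_cons, Option.mem_def, Option.some.injEq] at hp'
    subst hp'
    obtain ⟨x, b⟩ := p
    cases L with
    | nil =>
      have h0 : act (FreeGroup.mk ([] : List (α × Bool))) dl = dl := by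
        rw [← FreeGroup.one_eq_mk, act_one]
      refine ⟨[], 1, 1, one_ne_zero, le_refl _, by simp, ?_, ?_, ?_⟩
      · rw [act_cons, h0]
        simp [dl, N_cons]
      · rw [act_cons, h0]
        simp [dl, N_nil]
      · intro M hM
        rw [act_cons, h0] at hM
        cases M with
        | nil => simp
        | cons y M' =>
          simp only [Pi.add_apply, Pi.smul_apply, dl, N_cons] at hM
          by_cases h1 : y = x ∧ M'.head? ≠ some x
          · rw [if_pos h1] at hM
            by_cases h2 : M' = []
            · rw [h2, h1.1]
            · simp [h2] at hM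
          · rw [if_neg h1] at hM
            simp at hM
    | cons q L =>
      have hLr : FreeGroup.IsReduced (q :: L) := List.IsChain.tail hL
      have hxq := (List.isChain_cons_cons.mp hL).1
      obtain ⟨T, c, e, hc, he, hT, h1, h2, h3⟩ := ih hLr q (by simp)
      obtain ⟨y, b'⟩ := q
      simp only at hxq hT h1 h2 h3
      set v := act (FreeGroup.mk ((y, b') :: L)) dl with hv
      by_cases hxy : x = y
      · subst hxy
        have hb := hxq rfl
        subst hb
        refine ⟨T, c, e + 1, hc, by omega, hT, ?_, ?_, ?_⟩
        · rw [act_cons, ← hv, Pi.add_apply, Pi.smul_apply, N_cons, if_pos ⟨rfl, hT⟩, h1, h2,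
            smul_eq_mul]
          ring
        · rw [act_cons, ← hv, Pi.add_apply, Pi.smul_apply, N_head x v T hT, h2]
          simp
        · intro M hM
          rw [act_cons, ← hv, Pi.add_apply, Pi.smul_apply] at hM
          by_cases hvM : v M = 0
          · rw [hvM, zero_add] at hM
            have hN : N x v M ≠ 0 := fun h => hM (by rw [h, smul_zero])
            cases M with
            | nil => exact absurd (N_nil x v) hN
            | cons z M' =>
              rw [N_cons] at hN
              by_cases hz : z = x ∧ M'.head? ≠ some x
              · rw [if_pos hz] at hN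
                have h4 := h3 M' hN
                have h5 : M' <+ T := by
                  rcases List.sublist_cons_iff.mp h4 with h | ⟨r, hr, -⟩
                  · exact h
                  · exfalso
                    apply hz.2
                    rw [hr]
                    rfl
                rw [hz.1]
                exact h5.cons_cons x
              · rw [if_neg hz] at hN
                exact absurd rfl hN
          · exact h3 M hvM
      · refine ⟨y :: T, sg b' * e * c, 1, ?_, le_refl _, ?_, ?_, ?_, ?_⟩
        · have hs : sg b' ≠ 0 := by cases b' <;> simp [sg]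
          exact mul_ne_zero (mul_ne_zero hs (by omega)) hc
        · simp only [List.head?_cons, ne_eq, Option.some.injEq]
          exact fun h => hxy h.symm
        · have h0 : v (x :: y :: T) = 0 := by
            by_contra hne
            have := (h3 _ hne).length_le
            simp at this
          rw [act_cons, ← hv, Pi.add_apply, Pi.smul_apply, N_cons, if_pos, h0, h1, smul_eq_mul]
          · ring
          · refine ⟨rfl, ?_⟩
            simp only [List.head?_cons, ne_eq, Option.some.injEq]
            exact fun h => hxy h.symm
        · rw [act_cons, ← hv, Pi.add_apply, Pi.smul_apply, N_cons, if_neg, h1]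
          · simp
          · rintro ⟨h, -⟩
            exact hxy h.symm
        · intro M hM
          rw [act_cons, ← hv, Pi.add_apply, Pi.smul_apply] at hM
          by_cases hvM : v M = 0
          · rw [hvM, zero_add] at hM
            have hN : N x v M ≠ 0 := fun h => hM (by rw [h, smul_zero])
            cases M with
            | nil => simp
            | cons z M' =>
              rw [N_cons] at hN
              by_cases hz : z = x ∧ M'.head? ≠ some x
              · rw [if_pos hz] at hN
                have h4 := h3 M' hN
                rw [hz.1]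
                exact h4.cons_cons x
              · rw [if_neg hz] at hN
                exact absurd rfl hN
          · exact (h3 M hvM).cons x

/-- **Free groups are residually nilpotent.** -/
theorem eq_one_of_mem (g : FreeGroup α) (h : ∀ n, g ∈ Subgroup.lowerCentralSeries (⊤ : Subgroup (FreeGroup α)) n) :
    g = 1 := by
  have h1 : ∀ n, g ∈ H n := fun n =>
    Subgroup.descending_central_series_ge_lower _ H_central n (h n)
  have h2 : act g dl = dl := by
    funext L
    have h3 := h1 L.length 0 dl (fun L hL => by simp at hL) L (by omega)
    rw [Pi.sub_apply] at h3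
    exact sub_eq_zero.mp h3
  by_contra hg
  have hw : g.toWord ≠ [] := fun h => hg (FreeGroup.toWord_eq_nil_iff.mp h)
  obtain ⟨p, L, hpL⟩ := List.exists_cons_of_ne_nil hw
  obtain ⟨T, c, e, hc, he, -, h4, -, -⟩ :=
    top_coeff g.toWord FreeGroup.isReduced_toWord p (by rw [hpL]; simp)
  rw [FreeGroup.mk_toWord, h2] at h4
  simp only [dl, reduceCtorEq, if_false] at h4
  have hs : sg p.2 ≠ 0 := by
    obtain ⟨x, b⟩ := p
    cases b <;> simp [sg]
  exact (mul_ne_zero (mul_ne_zero hs (by omega)) hc) h4.symm

end Pool.Agent.Helper344.FNW.Res
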